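import Pool.Agent.helper43.BMH.Spec

/-!
# Row bmh:RND: rounding
-/

set_option autoImplicit false

namespace Pool.Agent.helper43.BMH

open scoped ENNReal

/-- the sign vector -/
noncomputable def RND_sg {d : ℕ} (v : Fin d → ℝ) : Fin d → ℤˣ := fun i => if 0 ≤ v i then 1 else -1

theorem RND_sq {d : ℕ} (x : Fin d → ℤˣ) (i : Fin d) : (sv x i) ^ 2 = 1 := by
  unfold sv
  rcases Int.units_eq_one_or (x i) with h | h
  · rw [h]; norm_num
  · rw [h]; norm_num

theorem RND_abs {d : ℕ} (v : Fin d → ℝ) (i : Fin d) : sv (RND_sg v) i * v i = |v i| := by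
  unfold sv RND_sg
  by_cases h : 0 ≤ v i
  · simp only [if_pos h]
    rw [abs_of_nonneg h]
    norm_num
  · simp only [if_neg h]
    rw [abs_of_neg (not_le.1 h)]
    norm_num

theorem RND_dist {d : ℕ} (v : Fin d → ℝ) (g : ℝ) (h1 : ∑ i, (v i) ^ 2 ≤ (d : ℝ))
    (h2 : (1 - g) * (d : ℝ) ≤ ∑ i, |v i|) :
    ∑ i, (sv (RND_sg v) i - v i) ^ 2 ≤ 2 * g * d := by
  have h3 : ∀ i, (sv (RND_sg v) i - v i) ^ 2 = 1 - 2 * |v i| + (v i) ^ 2 := by
    intro i
    have e1 := RND_sq (RND_sg v) i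
    have e2 := RND_abs v i
    calc (sv (RND_sg v) i - v i) ^ 2 =
        sv (RND_sg v) i ^ 2 - 2 * (sv (RND_sg v) i * v i) + (v i) ^ 2 := by ring
      _ = _ := by rw [e1, e2]
  simp only [h3]
  rw [Finset.sum_add_distrib, Finset.sum_sub_distrib, ← Finset.mul_sum, Finset.sum_const,
    Finset.card_univ, Fintype.card_fin, nsmul_eq_mul, mul_one]
  linarith

/-- RND -/
theorem t_rnd (h : HDN) : RND := by
  intro d H hd hH y α β hα hβ hy hyβ hv
  obtain ⟨-, -, hiso⟩ := h (Fin d) H hH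
  rw [Fintype.card_fin] at hiso
  have hd0 : (0 : ℝ) < d := by exact_mod_cast hd
  have hs0 : 0 < Real.sqrt d := Real.sqrt_pos.2 hd0
  have hs2 : Real.sqrt d ^ 2 = d := Real.sq_sqrt hd0.le
  have hiso' : ∀ u : Fin d → ℝ, ∑ i, (H.mulVec u i / Real.sqrt d) ^ 2 = ∑ i, (u i) ^ 2 := by
    intro u
    simp only [div_pow, hs2]
    rw [← Finset.sum_div, hiso u, mul_comm, mul_div_assoc, div_self hd0.ne', mul_one]
  let v : Fin d → ℝ := fun i => H.mulVec y i / Real.sqrt d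
  let x := RND_sg v
  let w := RND_sg y
  have hv2 : ∑ i, (v i) ^ 2 ≤ (d : ℝ) := by
    rw [show ∑ i, (v i) ^ 2 = ∑ i, (H.mulVec y i / Real.sqrt d) ^ 2 from rfl, hiso' y]
    exact hy
  have dx : ∑ i, (sv x i - v i) ^ 2 ≤ 2 * α * d := RND_dist v α hv2 hv
  have dw : ∑ i, (sv w i - y i) ^ 2 ≤ 2 * β * d := RND_dist y β hy hyβ
  refine ⟨x, w, ?_⟩
  -- the two differences
  let a : Fin d → ℝ := fun i => H.mulVec (fun j => sv w j - y j) i / Real.sqrt d
  let b : Fin d → ℝ := fun i => v i - sv x i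
  let mw : Fin d → ℝ := fun i => H.mulVec (sv w) i / Real.sqrt d
  have hab : ∀ i, mw i - sv x i = a i + b i := by
    intro i
    have h1 : H.mulVec (fun j => sv w j - y j) i = H.mulVec (sv w) i - H.mulVec y i := by
      have h2 : (fun j => sv w j - y j) = sv w - y := rfl
      rw [h2, Matrix.mulVec_sub]
      rfl
    show H.mulVec (sv w) i / Real.sqrt d - sv x i =
      H.mulVec (fun j => sv w j - y j) i / Real.sqrt d + (H.mulVec y i / Real.sqrt d - sv x i)
    rw [h1]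
    ring
  have ha : ∑ i, (a i) ^ 2 ≤ 2 * β * d := by
    rw [show ∑ i, (a i) ^ 2 = ∑ i, (H.mulVec (fun j => sv w j - y j) i / Real.sqrt d) ^ 2 from rfl,
      hiso' (fun j => sv w j - y j)]
    exact dw
  have hb : ∑ i, (b i) ^ 2 ≤ 2 * α * d := by
    have h1 : ∀ i, (b i) ^ 2 = (sv x i - v i) ^ 2 := by
      intro i
      show (v i - sv x i) ^ 2 = _
      ring
    simp only [h1]
    exact dx
  have hcs : ∑ i, a i * b i ≤ 2 * d * (Real.sqrt α * Real.sqrt β) := by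
    have h1 := Real.sum_mul_le_sqrt_mul_sqrt Finset.univ a b
    have h2 : Real.sqrt (∑ i, (a i) ^ 2) ≤ Real.sqrt (2 * β * d) := Real.sqrt_le_sqrt ha
    have h3 : Real.sqrt (∑ i, (b i) ^ 2) ≤ Real.sqrt (2 * α * d) := Real.sqrt_le_sqrt hb
    have h4 : Real.sqrt (2 * β * d) * Real.sqrt (2 * α * d) =
        2 * d * (Real.sqrt α * Real.sqrt β) := by
      rw [← Real.sqrt_mul (by positivity), ← Real.sqrt_mul hα]
      rw [show 2 * β * d * (2 * α * d) = (2 * d) ^ 2 * (α * β) by ring,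
        Real.sqrt_mul (by positivity), Real.sqrt_sq (by positivity)]
    calc ∑ i, a i * b i ≤ _ := h1
      _ ≤ Real.sqrt (2 * β * d) * Real.sqrt (2 * α * d) :=
        mul_le_mul h2 h3 (Real.sqrt_nonneg _) (Real.sqrt_nonneg _)
      _ = _ := h4
  have hsum : ∑ i, (mw i - sv x i) ^ 2 ≤ 2 * d * (Real.sqrt α + Real.sqrt β) ^ 2 := by
    have h1 : ∀ i, (mw i - sv x i) ^ 2 = (a i) ^ 2 + 2 * (a i * b i) + (b i) ^ 2 := by
      intro i
      rw [hab i]
      ring
    simp only [h1]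
    rw [Finset.sum_add_distrib, Finset.sum_add_distrib, ← Finset.mul_sum]
    have e1 : Real.sqrt α ^ 2 = α := Real.sq_sqrt hα
    have e2 : Real.sqrt β ^ 2 = β := Real.sq_sqrt hβ
    have e3 : 2 * (d : ℝ) * (Real.sqrt α + Real.sqrt β) ^ 2 =
        2 * d * (Real.sqrt α ^ 2 + Real.sqrt β ^ 2) +
          2 * (2 * d * (Real.sqrt α * Real.sqrt β)) := by ring
    rw [e3, e1, e2]
    linarith
  have hexp : ∑ i, (mw i - sv x i) ^ 2 = 2 * d - 2 * ∑ i, sv x i * mw i := by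
    have h1 : ∀ i, (mw i - sv x i) ^ 2 = (mw i) ^ 2 + 1 - 2 * (sv x i * mw i) := by
      intro i
      have e := RND_sq x i
      calc (mw i - sv x i) ^ 2 = (mw i) ^ 2 + (sv x i) ^ 2 - 2 * (sv x i * mw i) := by ring
        _ = _ := by rw [e]
    simp only [h1]
    rw [Finset.sum_sub_distrib, Finset.sum_add_distrib, ← Finset.mul_sum, Finset.sum_const,
      Finset.card_univ, Fintype.card_fin, nsmul_eq_mul, mul_one]
    have h2 : ∑ i, (mw i) ^ 2 = d := by
      rw [show ∑ i, (mw i) ^ 2 = ∑ i, (H.mulVec (sv w) i / Real.sqrt d) ^ 2 from rfl,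
        hiso' (sv w)]
      simp only [RND_sq]
      rw [Finset.sum_const, Finset.card_univ, Fintype.card_fin, nsmul_eq_mul, mul_one]
    rw [h2]
    ring
  have hin : (1 - (Real.sqrt α + Real.sqrt β) ^ 2) * d ≤ ∑ i, sv x i * mw i := by
    rw [hexp] at hsum
    linarith
  have hfin : ∑ i, sv x i * H.mulVec (sv w) i = Real.sqrt d * ∑ i, sv x i * mw i := by
    rw [Finset.mul_sum]
    apply Finset.sum_congr rfl
    intro i _
    show sv x i * H.mulVec (sv w) i = Real.sqrt d * (sv x i * (H.mulVec (sv w) i / Real.sqrt d))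
    field_simp
  have hpow : (d : ℝ) ^ (3 / 2 : ℝ) = d * Real.sqrt d := by
    rw [Real.sqrt_eq_rpow, show (3 / 2 : ℝ) = 1 + 1 / 2 by norm_num, Real.rpow_add hd0,
      Real.rpow_one]
  rw [hfin, hpow]
  calc (1 - (Real.sqrt α + Real.sqrt β) ^ 2) * (d * Real.sqrt d) =
      Real.sqrt d * ((1 - (Real.sqrt α + Real.sqrt β) ^ 2) * d) := by ring
    _ ≤ Real.sqrt d * ∑ i, sv x i * mw i := mul_le_mul_of_nonneg_left hin hs0.le

end Pool.Agent.helper43.BMH
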